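import Mathlib
import Pool.Agent.X147.SetG

set_option autoImplicit false

/-! # MP_ded0ac_co, Q1: shifted `(n + 1, n)`-setups

Definitions used (in `Pool.Agent.X147.SP`): `verts n z` is the vertex set of the regular `n`-gon
centred at `0` having `z` as a vertex; `IsMarkedBasicSetup k n A` says that the regular `n`-gons
`conv (verts n (A i))`, `i : Fin k`, have side `1`, that all their vertices form a regular
`k n`-gon, and that the marked vertices `A i` form a regular `k`-gon; `shiftedUnion n A ε` is the
union of the polygons `ε A i + conv (verts n (A i))`; `perim U` is the one-dimensional Hausdorff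
measure of the boundary of `U` and `area U` the area of `U`. -/

open Pool.Agent.X147.SP

namespace Pool.Agent.Results.MP_ded0ac_co.ExactShift

theorem result (n : ℕ) (hn : 3 ≤ n) :
    (∃ A : Fin (n + 1) → ℂ, IsMarkedBasicSetup (n + 1) n A) ∧
    ∀ A : Fin (n + 1) → ℂ, IsMarkedBasicSetup (n + 1) n A →
      ∃ ε₀ : ℝ, 0 < ε₀ ∧ ∀ ε : ℝ, 0 < ε → ε < ε₀ →
        perim (shiftedUnion n A ε) = perim (shiftedUnion n A 0) ∧
        area (shiftedUnion n A ε) = area (shiftedUnion n A 0) -
          ε ^ 2 * (n * (n + 1) * Real.tan (Real.pi / (n + 1)) /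
            (8 * Real.sin (Real.pi / n) ^ 2)) ∧
        4 * Real.tan (Real.pi / n) < perim (shiftedUnion n A ε) / area (shiftedUnion n A ε) := by
  have hcop : Nat.Coprime (n + 1) n := by simp
  refine ⟨exists_setup (by omega) hn hcop, fun A hA => ?_⟩
  obtain ⟨a, ha, h1⟩ := Metric.eventually_nhds_iff.1 (ratio_two (by omega) hn hcop hA)
  obtain ⟨b, hb, h2⟩ := Metric.eventually_nhds_iff.1 (exact_formulas hn hA)
  have hmod : n + 1 ≡ 1 [MOD n] := by
    unfold Nat.ModEq; simp
  refine ⟨min a b, lt_min ha hb, fun ε h0 h3 => ?_⟩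
  have hd : dist ε 0 = ε := by rw [Real.dist_eq, sub_zero, abs_of_pos h0]
  have h4 := h1 (y := ε) (by rw [hd]; exact h3.trans_le (min_le_left a b)) h0.ne'
  have h5 := h2 (y := ε) (by rw [hd]; exact h3.trans_le (min_le_right a b))
  exact ⟨h5.1, h5.2, h4.2 hmod⟩

end Pool.Agent.Results.MP_ded0ac_co.ExactShift
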